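import Pool.Agent.Run7.h555.G6.U3
import Pool.Agent.Run7.h555.Q4.Z4
import Pool.Agent.K4H55.BD.Loc
import Pool.Agent.R425.Av

/-!
Squares in the completions of `ℚ`.
-/

set_option autoImplicit false
set_option linter.unusedSectionVars false

namespace Run7.h555.G6

open NumberField IsDedekindDomain WithZero WeierstrassCurve
open Rat.HeightOneSpectrum (natGenerator primesEquiv prime_natGenerator span_natGenerator)
open Run7.h555.Tam (mem_iff val_gen val_one val_sqf val_alg cz_compl val_nat exists_exp exp_sq exp_cube)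

variable (v : HeightOneSpectrum (𝓞 ℚ))

/-- an integer near to an integral element -/
theorem exists_int {s : v.adicCompletion ℚ} (hs : Valued.v s ≤ 1) :
    ∃ n : ℤ, Valued.v (s - (n : v.adicCompletion ℚ)) < 1 := by
  obtain ⟨a, ha⟩ := Pool.Agent.R425.exists_approxO v s hs
  set n : ℤ := Rat.IsIntegralClosure.intEquiv (𝓞 ℚ) a with hn
  have han : a = (n : 𝓞 ℚ) := by
    have h1 : Rat.IsIntegralClosure.intEquiv (𝓞 ℚ) (n : 𝓞 ℚ) = n := by
      rw [map_intCast]
      rfl
    apply (Rat.IsIntegralClosure.intEquiv (𝓞 ℚ)).injective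
    rw [h1]
  refine ⟨n, ?_⟩
  have e : algebraMap ℚ (v.adicCompletion ℚ) ((a : 𝓞 ℚ) : ℚ) = (n : v.adicCompletion ℚ) := by
    rw [han]
    simp
  rw [e] at ha
  exact ha

/-- divisibility of an integer by the prime of the place -/
theorem dvd_of_lt {n : ℤ} (h : Valued.v (n : v.adicCompletion ℚ) < 1) : (natGenerator v : ℤ) ∣ n := by
  have h6 : (n : v.adicCompletion ℚ) = algebraMap ℚ (v.adicCompletion ℚ)
      (algebraMap (𝓞 ℚ) ℚ ((n : ℤ) : 𝓞 ℚ)) := by
    rw [map_intCast, map_intCast]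
  rw [h6, val_alg, HeightOneSpectrum.valuation_lt_one_iff_mem] at h
  have h7 : natGenerator v ∣ n.natAbs := by
    rw [← mem_iff]
    have hab : (n : 𝓞 ℚ) = ((n.natAbs : ℕ) : 𝓞 ℚ) ∨ (n : 𝓞 ℚ) = -((n.natAbs : ℕ) : 𝓞 ℚ) := by
      rcases Int.natAbs_eq n with h8 | h8
      · left
        calc (n : 𝓞 ℚ) = ((n.natAbs : ℤ) : 𝓞 ℚ) := congrArg _ h8
          _ = _ := Int.cast_natCast _
      · right
        calc (n : 𝓞 ℚ) = ((-(n.natAbs : ℤ) : ℤ) : 𝓞 ℚ) := congrArg _ h8
          _ = -((n.natAbs : ℤ) : 𝓞 ℚ) := Int.cast_neg _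
          _ = _ := by rw [Int.cast_natCast]
    rcases hab with h8 | h8
    · rw [h8] at h
      exact h
    · rw [h8, neg_mem_iff] at h
      exact h
  exact Int.natCast_dvd.2 h7

/-- a nonresidue is not near to a square -/
theorem not_near {D : ℤ} (hD : ¬ IsSquare ((D : ℤ) : ZMod (natGenerator v))) (s : v.adicCompletion ℚ) :
    ¬ Valued.v ((D : v.adicCompletion ℚ) - s ^ 2) < 1 := by
  intro h
  have hvD : Valued.v (D : v.adicCompletion ℚ) ≤ 1 := Run7.h555.Tam.vint _ D
  have hs : Valued.v s ≤ 1 := by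
    by_contra h1
    push Not at h1
    have h3 : Valued.v (D : v.adicCompletion ℚ) < Valued.v (s ^ 2) := by
      rw [map_pow]
      exact lt_of_le_of_lt hvD (one_lt_pow₀ h1 two_ne_zero)
    rw [Valuation.map_sub_eq_of_lt_right _ h3, map_pow] at h
    exact absurd h (not_lt.2 (one_lt_pow₀ h1 two_ne_zero).le)
  obtain ⟨n, hn⟩ := exists_int v hs
  have h5 : Valued.v (((D - n ^ 2 : ℤ)) : v.adicCompletion ℚ) < 1 := by
    have e : ((D - n ^ 2 : ℤ) : v.adicCompletion ℚ) = ((D : v.adicCompletion ℚ) - s ^ 2) +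
        (s - n) * (s + n) := by
      push_cast
      ring
    rw [e]
    exact Run7.h555.Tam.vaddl h (Run7.h555.Tam.vmulr hn
      (Run7.h555.Tam.vadd hs (Run7.h555.Tam.vint _ n)))
  have h8 := dvd_of_lt v h5
  apply hD
  rw [← ZMod.intCast_zmod_eq_zero_iff_dvd] at h8
  push_cast at h8
  exact ⟨(n : ZMod (natGenerator v)), by linear_combination h8⟩

/-- a residue is a square -/
theorem exists_root {D : ℤ} (h2 : natGenerator v ≠ 2) (hpD : ¬ (natGenerator v : ℤ) ∣ D)
    (hD : IsSquare ((D : ℤ) : ZMod (natGenerator v))) :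
    ∃ s : v.adicCompletion ℚ, s ^ 2 = D := by
  obtain ⟨y, hy⟩ := hD
  obtain ⟨n, rfl⟩ := ZMod.intCast_surjective y
  have hd : (natGenerator v : ℤ) ∣ D - n ^ 2 := by
    rw [← ZMod.intCast_zmod_eq_zero_iff_dvd]
    push_cast
    rw [hy]
    ring
  obtain ⟨s, hs⟩ := Pool.Agent.K4H55.BD.sq_odd (K := ℚ) v (prime_natGenerator v) h2 (by
    rw [mem_iff]) hpD hd
  refine ⟨s, ?_⟩
  rw [sq, ← hs]
  simp

/-- the place two: the residue field has two elements -/
theorem res_two (hg : natGenerator v = 2) {s : v.adicCompletion ℚ} (hs : Valued.v s ≤ 1) :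
    Valued.v s < 1 ∨ Valued.v (s - 1) < 1 := by
  have hv2 : Valued.v (2 : v.adicCompletion ℚ) < 1 := by
    have h4 := val_nat v 2
    rw [val_sqf v Nat.prime_two.prime.squarefree (by rw [hg])] at h4
    have h5 : Valued.v (2 : v.adicCompletion ℚ) = exp (-1) := by exact_mod_cast h4
    rw [h5, ← exp_zero, exp_lt_exp]
    norm_num
  obtain ⟨n, hn⟩ := exists_int v hs
  have hk : ∀ k : ℤ, Valued.v (2 * (k : v.adicCompletion ℚ)) < 1 := by
    intro k
    exact Run7.h555.Tam.vmulr hv2 (Run7.h555.Tam.vint _ k)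
  rcases Int.even_or_odd n with ⟨k, hk'⟩ | ⟨k, hk'⟩
  · left
    have e : s = (s - n) + 2 * (k : v.adicCompletion ℚ) := by
      rw [hk']
      push_cast
      ring
    rw [e]
    exact Run7.h555.Tam.vaddl hn (hk k)
  · right
    have e : s - 1 = (s - n) + 2 * (k : v.adicCompletion ℚ) := by
      rw [hk']
      push_cast
      ring
    rw [e]
    exact Run7.h555.Tam.vaddl hn (hk k)

/-- the units near to a square modulo eight -/
theorem not_five (hg : natGenerator v = 2) {D : ℕ} (hD : D % 8 = 5) (s : v.adicCompletion ℚ) :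
    ¬ Valued.v (s ^ 2 - (D : v.adicCompletion ℚ)) ≤ exp (-3) := by
  classical
  intro h
  have hv2 : Valued.v (2 : v.adicCompletion ℚ) = exp (-1) := by
    have h4 := val_nat v 2
    rw [val_sqf v Nat.prime_two.prime.squarefree (by rw [hg])] at h4
    exact_mod_cast h4
  have hv20 : (2 : v.adicCompletion ℚ) ≠ 0 := by
    intro h0
    rw [h0, map_zero] at hv2
    exact exp_ne_zero hv2.symm
  have l3 : exp (-3 : ℤ) < (1 : WithZero (Multiplicative ℤ)) := by
    rw [← exp_zero, exp_lt_exp]; norm_num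
  have hvD : Valued.v (D : v.adicCompletion ℚ) = 1 := by
    rw [val_nat, val_one v (by rw [hg]; omega)]
  have hs2 : Valued.v (s ^ 2) = 1 := by
    have e : s ^ 2 = (s ^ 2 - (D : v.adicCompletion ℚ)) + D := by ring
    rw [e, Valuation.map_add_eq_of_lt_right, hvD]
    rw [hvD]
    exact lt_of_le_of_lt h l3
  have hs : Valued.v s = 1 := by
    rw [map_pow] at hs2
    exact (pow_eq_one_iff_of_nonneg zero_le two_ne_zero).1 hs2
  have hs1 : Valued.v (s - 1) < 1 := by
    rcases res_two v hg hs.le with h1 | h1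
    · rw [hs] at h1
      exact absurd h1 (lt_irrefl _)
    · exact h1
  set t := (s - 1) / 2 with ht
  have hst : s = 1 + 2 * t := by
    rw [ht]
    field_simp
    ring
  have ht1 : Valued.v t ≤ 1 := by
    by_cases h0 : s - 1 = 0
    · rw [ht, h0, zero_div, map_zero]
      exact zero_le
    · obtain ⟨k, hk⟩ := exists_exp Valued.v h0
      have hk0 : k < 0 := by
        rw [hk, ← exp_zero, exp_lt_exp] at hs1
        exact hs1
      rw [ht, map_div₀, hk, hv2, ← exp_sub, ← exp_zero, exp_le_exp]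
      omega
  have h3 : Valued.v (t * (t + 1)) < 1 := by
    rcases res_two v hg ht1 with h1 | h1
    · exact Run7.h555.Tam.vmulr h1 (Run7.h555.Tam.vadd ht1 (by simp))
    · refine Run7.h555.Tam.vmull ht1 ?_
      have e : t + 1 = (t - 1) + 2 := by ring
      rw [e]
      refine Run7.h555.Tam.vaddl h1 ?_
      rw [hv2, ← exp_zero, exp_lt_exp]
      norm_num
  have h4 : Valued.v (s ^ 2 - 1) ≤ exp (-3) := by
    have e : s ^ 2 - 1 = 2 ^ 2 * (t * (t + 1)) := by
      rw [hst]
      ring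
    by_cases h0 : t * (t + 1) = 0
    · rw [e, h0, mul_zero, map_zero]
      exact zero_le
    · obtain ⟨k, hk⟩ := exists_exp Valued.v h0
      have hk0 : k < 0 := by
        rw [hk, ← exp_zero, exp_lt_exp] at h3
        exact h3
      rw [e, map_mul, map_pow, hv2, exp_sq, hk, ← exp_add, exp_le_exp]
      omega
  -- `D = 5 + 8 k`, so that `4` would be divisible by eight
  obtain ⟨k, hk⟩ : ∃ k : ℕ, D = 5 + 8 * k := ⟨D / 8, by omega⟩
  have h8 : Valued.v (2 ^ 3 * (k : v.adicCompletion ℚ)) ≤ exp (-3) := by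
    have h9 : Valued.v (k : v.adicCompletion ℚ) ≤ 1 := Run7.h555.Tam.vnat _ k
    rw [map_mul, map_pow, hv2, exp_cube]
    calc exp (3 * -1) * Valued.v (k : v.adicCompletion ℚ) ≤ exp (3 * -1) * 1 :=
          mul_le_mul_right h9 _
      _ = exp (-3) := by rw [mul_one]; norm_num
  have h10 : Valued.v ((2 : v.adicCompletion ℚ) ^ 2) ≤ exp (-3) := by
    have e : (2 : v.adicCompletion ℚ) ^ 2 =
        ((s ^ 2 - 1) - (s ^ 2 - (D : v.adicCompletion ℚ))) - 2 ^ 3 * (k : v.adicCompletion ℚ) := by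
      rw [hk]
      push_cast
      ring
    rw [e]
    exact Valuation.map_sub_le _ (Valuation.map_sub_le _ h4 h) h8
  rw [map_pow, hv2, exp_sq, exp_le_exp] at h10
  omega

end Run7.h555.G6
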