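import Pool.Agent.Run7.h555.C12.P2

/-!
The real period of a lattice which is stable under the complex conjugation, the general form.
-/

set_option autoImplicit false
set_option linter.unusedSectionVars false

open Filter MeasureTheory Set
open scoped Topology PeriodPair

namespace Run7.h555.G6

open H667R3 Pool.Agent.W192.HK Pool.Agent.TH936.CM Pool.Agent.TH936.PU
open Pool.Agent.Y698 (isLat_neg_mem dwp_half real_of_conj)
open Run7.h555.C12 (RQ)

variable {L : PeriodPair} {ω : ℝ}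

/-- the lattice is stable under the conjugation -/
def CS (L : PeriodPair) : Prop := ∀ z ∈ L.lattice, (starRingEnd ℂ) z ∈ L.lattice

lemma CS.iff (h : CS L) {z : ℂ} : (starRingEnd ℂ) z ∈ L.lattice ↔ z ∈ L.lattice := by
  refine ⟨fun h1 => ?_, h z⟩
  have := h _ h1
  rwa [Complex.conj_conj] at this

/-- the conjugation on the lattice -/
noncomputable def CS.eqv (h : CS L) : L.lattice ≃ L.lattice where
  toFun l := ⟨(starRingEnd ℂ) l, h _ l.2⟩
  invFun l := ⟨(starRingEnd ℂ) l, h _ l.2⟩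
  left_inv l := Subtype.ext (Complex.conj_conj _)
  right_inv l := Subtype.ext (Complex.conj_conj _)

lemma CS.wp_conj (h : CS L) (z : ℂ) : ℘[L] ((starRingEnd ℂ) z) = (starRingEnd ℂ) (℘[L] z) := by
  unfold PeriodPair.weierstrassP
  rw [Complex.conj_tsum, ← h.eqv.tsum_eq]
  refine tsum_congr fun l => ?_
  have e : ((h.eqv l : L.lattice) : ℂ) = (starRingEnd ℂ) (l : ℂ) := rfl
  rw [e]
  simp only [map_sub, map_div₀, map_one, map_pow]

lemma CS.dwp_conj (h : CS L) {z : ℂ} (hz : z ∉ L.lattice) :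
    ℘'[L] ((starRingEnd ℂ) z) = (starRingEnd ℂ) (℘'[L] z) := by
  have hz' : (starRingEnd ℂ) z ∉ L.lattice := fun h1 => hz (h.iff.1 h1)
  have h1 := (hasDerivAt_weierstrassP L hz).conj_conj
  have h2 : (starRingEnd ℂ) ∘ ℘[L] ∘ (starRingEnd ℂ) = ℘[L] := by
    funext w
    simp only [Function.comp_apply, h.wp_conj, Complex.conj_conj]
  rw [h2] at h1
  exact (hasDerivAt_weierstrassP L hz').unique h1

/-- the function on the real line -/
noncomputable def uR (L : PeriodPair) (t : ℝ) : ℝ := (℘[L] t).re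

lemma CS.u_real (h : CS L) (t : ℝ) : ((uR L t : ℝ) : ℂ) = ℘[L] t := by
  apply real_of_conj
  rw [← h.wp_conj, Complex.conj_ofReal]

lemma CS.d_real (h : CS L) {t : ℝ} (ht : (t : ℂ) ∉ L.lattice) :
    (((℘'[L] t).re : ℝ) : ℂ) = ℘'[L] t := by
  apply real_of_conj
  rw [← h.dwp_conj ht, Complex.conj_ofReal]

lemma hasDerivAt_uR {t : ℝ} (ht : (t : ℂ) ∉ L.lattice) :
    HasDerivAt (uR L) (℘'[L] (t : ℂ)).re t :=
  (hasDerivAt_weierstrassP L ht).real_of_complex

/-- the data -/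
structure RD (L : PeriodPair) (ω : ℝ) (q : ℝ → ℝ) (e : ℝ) : Prop where
  cs : CS L
  rq : RQ L ω
  ode : ∀ t : ℝ, (t : ℂ) ∉ L.lattice → (℘'[L] t).re ^ 2 = q (uR L t)
  root : q e = 0
  pos : ∀ x, e < x → 0 < q x

variable {q : ℝ → ℝ} {e : ℝ} (D : RD L ω q e)

include D

lemma RD.qpos {t : ℝ} (h0 : 0 < t) (h1 : t < ω / 2) : 0 < q (uR L t) := by
  have hω := D.rq
  have hp := hω.pos
  have ht : (t : ℂ) ∉ L.lattice := hω.notMem t h0 (by linarith)
  rw [← D.ode t ht]
  have h2 : ℘'[L] (t : ℂ) ≠ 0 := wp'_ne_zero L (by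
    have := hω.notMem (2 * t) (by linarith) (by linarith)
    push_cast at this
    exact this)
  have h3 : (℘'[L] t).re ≠ 0 := by
    intro h4
    apply h2
    rw [← D.cs.d_real ht, h4]
    simp
  positivity

lemma RD.inj : Set.InjOn (uR L) (Set.Ioo 0 (ω / 2)) := by
  intro t ht u hu e
  have hω := D.rq
  have hp := hω.pos
  obtain ⟨ht0, ht1⟩ := ht
  obtain ⟨hu0, hu1⟩ := hu
  have h1 : ℘[L] (t : ℂ) = ℘[L] (u : ℂ) := by
    rw [← D.cs.u_real t, ← D.cs.u_real u, e]
  rw [wp_eq_iff L (hω.notMem t ht0 (by linarith)) (hω.notMem u hu0 (by linarith))] at h1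
  rcases h1 with h1 | h1
  · exfalso
    refine hω.notMem (t + u) (by linarith) (by linarith) (by push_cast; exact h1)
  · rcases lt_trichotomy t u with h2 | h2 | h2
    · exfalso
      have := neg_mem h1
      rw [neg_sub] at this
      refine hω.notMem (u - t) (by linarith) (by linarith) (by push_cast; exact this)
    · exact h2
    · exfalso
      refine hω.notMem (t - u) (by linarith) (by linarith) (by push_cast; exact h1)

omit D in
lemma uR_top : Tendsto (uR L) (𝓝[>] 0) atTop := by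
  have h1 : ∀ t : ℝ, uR L t = (1 / t ^ 2) + (℘[L - (0 : ℂ)] (t : ℂ)).re := by
    intro t
    have h2 := L.weierstrassPExcept_add (0 : L.lattice) (t : ℂ)
    simp only [ZeroMemClass.coe_zero, sub_zero] at h2
    unfold uR
    rw [← h2]
    have e : (1 / (t : ℂ) ^ 2 - 1 / 0 ^ 2) = ((1 / t ^ 2 : ℝ) : ℂ) := by
      push_cast
      simp
    rw [e, Complex.add_re, Complex.ofReal_re]
    ring
  have h2 : Tendsto (fun t : ℝ => (℘[L - (0 : ℂ)] (t : ℂ)).re) (𝓝[>] 0)
      (𝓝 (℘[L - (0 : ℂ)] ((0 : ℝ) : ℂ)).re) := by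
    have h4 : ContinuousAt ℘[L - (0 : ℂ)] ((0 : ℝ) : ℂ) := by
      rw [Complex.ofReal_zero]
      exact (L.analyticAt_weierstrassPExcept 0).continuousAt
    have h5 : ContinuousAt (fun t : ℝ => (℘[L - (0 : ℂ)] (t : ℂ)).re) 0 :=
      Complex.continuous_re.continuousAt.comp (h4.comp Complex.continuous_ofReal.continuousAt)
    exact h5.tendsto.mono_left nhdsWithin_le_nhds
  have h3 : Tendsto (fun t : ℝ => 1 / t ^ 2) (𝓝[>] 0) atTop := by
    have h4 : Tendsto (fun t : ℝ => t⁻¹) (𝓝[>] 0) atTop := tendsto_inv_nhdsGT_zero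
    have h5 := (tendsto_pow_atTop (α := ℝ) two_ne_zero).comp h4
    refine h5.congr fun t => ?_
    simp [inv_pow]
  exact (h3.atTop_add h2).congr fun t => (h1 t).symm

lemma RD.cont : ContinuousOn (uR L) (Set.Ioc 0 (ω / 2)) := by
  intro t ht
  have hp := D.rq.pos
  exact (hasDerivAt_uR (D.rq.notMem t ht.1 (by linarith [ht.2]))).continuousAt.continuousWithinAt

omit D in
/-- a small argument with a large value -/
lemma small {b : ℝ} (hb : 0 < b) (M : ℝ) : ∃ t : ℝ, 0 < t ∧ t < b ∧ M < uR L t := by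
  have h1 : ∀ᶠ t in 𝓝[>] (0 : ℝ), M < uR L t := uR_top.eventually_gt_atTop M
  have h2 : ∀ᶠ t in 𝓝[>] (0 : ℝ), t < b := by
    filter_upwards [Ioo_mem_nhdsGT hb] with t ht using ht.2
  have h3 : ∀ᶠ t in 𝓝[>] (0 : ℝ), 0 < t := self_mem_nhdsWithin
  obtain ⟨t, h4, h5, h6⟩ := (h1.and (h2.and h3)).exists
  exact ⟨t, h6, h5, h4⟩

lemma RD.gt {t : ℝ} (h0 : 0 < t) (h1 : t < ω / 2) : e < uR L t := by
  by_contra hc
  push Not at hc
  obtain ⟨s, hs0, hst, hs⟩ := small (L := L) h0 e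
  have h2 : ContinuousOn (uR L) (Set.Icc s t) :=
    D.cont.mono fun r hr => ⟨hs0.trans_le hr.1, by linarith [hr.2]⟩
  obtain ⟨r, hr, hr'⟩ := intermediate_value_Icc' hst.le h2 ⟨hc, hs.le⟩
  have h3 := D.qpos (hs0.trans_le hr.1) (lt_of_le_of_lt hr.2 h1)
  rw [hr', D.root] at h3
  exact lt_irrefl _ h3

/-- **the value at the half period** -/
theorem RD.half : uR L (ω / 2) = e := by
  have hω := D.rq
  have hp := hω.pos
  have hn := hω.notMem (ω / 2) (by linarith) (by linarith)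
  have h1 : e ≤ uR L (ω / 2) := by
    have h2 : Tendsto (uR L) (𝓝[<] (ω / 2)) (𝓝 (uR L (ω / 2))) :=
      ((hasDerivAt_uR hn).continuousAt.tendsto).mono_left nhdsWithin_le_nhds
    refine ge_of_tendsto h2 ?_
    filter_upwards [Ioo_mem_nhdsLT (show (0 : ℝ) < ω / 2 by linarith)] with t ht
    exact (D.gt ht.1 ht.2).le
  have h3 : q (uR L (ω / 2)) = 0 := by
    rw [← D.ode _ hn, dwp_half (by
      have e : 2 * ((ω / 2 : ℝ) : ℂ) = (ω : ℂ) := by push_cast; ring
      rw [e]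
      exact hω.mem)]
    simp
  rcases h1.eq_or_lt with h4 | h4
  · exact h4.symm
  · exfalso
    have := D.pos _ h4
    rw [h3] at this
    exact lt_irrefl _ this

theorem RD.image : uR L '' (Set.Ioo 0 (ω / 2)) = Set.Ioi e := by
  have hp := D.rq.pos
  ext x
  constructor
  · rintro ⟨t, ⟨ht0, ht1⟩, rfl⟩
    exact D.gt ht0 ht1
  · intro hx
    have hx' : e < x := hx
    obtain ⟨s, hs0, hst, hs⟩ := small (L := L) (b := ω / 2) (by linarith) x
    have h2 : ContinuousOn (uR L) (Set.Icc s (ω / 2)) :=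
      D.cont.mono fun r hr => ⟨hs0.trans_le hr.1, hr.2⟩
    obtain ⟨r, hr, hr'⟩ := intermediate_value_Icc' hst.le h2 ⟨by rw [D.half]; exact hx'.le, hs.le⟩
    refine ⟨r, ⟨hs0.trans_le hr.1, lt_of_le_of_ne hr.2 ?_⟩, hr'⟩
    rintro rfl
    rw [D.half] at hr'
    exact absurd hr' hx'.ne

/-- **the real period** -/
theorem RD.period : IntegrableOn (fun x => 1 / √(q x)) (Ioi e) ∧
    ∫ x in Ioi e, 1 / √(q x) = ω / 2 := by
  have hω := D.rq
  have hp := hω.pos
  have hi : ∀ t ∈ Set.Ioo 0 (ω / 2), |(℘'[L] (t : ℂ)).re| • (1 / √(q (uR L t))) = 1 := by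
    rintro t ⟨ht0, ht1⟩
    have ht : (t : ℂ) ∉ L.lattice := hω.notMem t ht0 (by linarith)
    rw [← D.ode t ht, Real.sqrt_sq_eq_abs, smul_eq_mul]
    have h2 : |(℘'[L] (t : ℂ)).re| ≠ 0 := by
      rw [abs_ne_zero]
      intro h3
      have := D.qpos ht0 ht1
      rw [← D.ode t ht, h3] at this
      simp at this
    field_simp
  have hd : ∀ t ∈ Set.Ioo 0 (ω / 2),
      HasDerivWithinAt (uR L) (℘'[L] (t : ℂ)).re (Set.Ioo 0 (ω / 2)) t := by
    rintro t ⟨ht0, ht1⟩
    exact (hasDerivAt_uR (hω.notMem t ht0 (by linarith))).hasDerivWithinAt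
  rw [← D.image]
  constructor
  · rw [integrableOn_image_iff_integrableOn_abs_deriv_smul measurableSet_Ioo hd D.inj]
    refine (integrableOn_congr_fun (g := fun _ => (1 : ℝ)) (fun t ht => hi t ht)
      measurableSet_Ioo).2 ?_
    exact integrableOn_const (by simp)
  · rw [integral_image_eq_integral_abs_deriv_smul measurableSet_Ioo hd D.inj,
      setIntegral_congr_fun measurableSet_Ioo hi, setIntegral_const]
    simp only [Measure.real, Real.volume_Ioo, smul_eq_mul]
    rw [ENNReal.toReal_ofReal (by linarith)]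
    ring

end Run7.h555.G6
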