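import Pool.Agent.Run7.h555.C12.T2

/-!
Local indices for `y² = x³ + a x² + b x`, the general form.
-/

set_option autoImplicit false
set_option linter.unusedSectionVars false

namespace Run7.h555.G6

open WeierstrassCurve WithZero
open Run7.h555.Tam (exists_exp exp_sq exp_cube vint vnat vadd vsub vmul vpow vneg vaddl vsubl vmull vmulr
  vpowl)
open Run7.h555.C12

variable {L : Type} [Field L] {W : WeierstrassCurve L} {a b : L} [DecidableEq L] (v : Valuation L ℤᵐ⁰)

/-- the curve `y² = x³ + a x² + b x` -/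
structure AB (W : WeierstrassCurve L) (a b : L) : Prop where
  k1 : W.a₁ = 0
  k2 : W.a₂ = a
  k3 : W.a₃ = 0
  k4 : W.a₄ = b
  k6 : W.a₆ = 0
  ne : b ≠ 0

variable (A : AB W a b)

include A in
omit [DecidableEq L] in
lemma AB.S0 : CR W 0 b :=
  ⟨A.k1, A.k3, by rw [A.k6]; ring, by rw [A.k4]; ring, A.ne⟩

include A in
omit [DecidableEq L] in
lemma AB.eqn {X Y : L} (h : W.toAffine.Nonsingular X Y) :
    Y ^ 2 = X ^ 3 + a * X ^ 2 + b * X := by
  have := A.S0.eqn h.1
  rw [A.k2, A.k4, A.k6] at this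
  linear_combination this

variable {v}

include A in
/-- a subgroup which is the set of the points with nonsingular reduction -/
theorem idx_of (ha : v a < 1) (hb : v b < 1) {H : AddSubgroup W.toAffine.Point} {n : ℕ}
    (hH : H.index = n)
    (h0 : ∀ X Y (h : W.toAffine.Nonsingular X Y), (.some X Y h : W.toAffine.Point) ∈ H ↔ 1 ≤ v X) :
    (AddSubgroup.closure {P : W.toAffine.Point | ∀ x y h, P = Affine.Point.some x y h →
      1 < v x ∨ v (W.a₁ * y - (3 * x ^ 2 + 2 * W.a₂ * x + W.a₄)) = 1 ∨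
      v (2 * y + W.a₁ * x + W.a₃) = 1}).index = n := by
  rw [A.k1, A.k2, A.k3, A.k4, ← hH]
  congr 1
  have hset : {P : W.toAffine.Point | ∀ x y h, P = Affine.Point.some x y h →
      1 < v x ∨ v (0 * y - (3 * x ^ 2 + 2 * a * x + b)) = 1 ∨
      v (2 * y + 0 * x + 0) = 1} = (H : Set W.toAffine.Point) := by
    apply Set.ext
    intro P
    constructor
    · intro hP
      rcases P with _ | ⟨x, y, h⟩
      · exact H.zero_mem
      · have h1 := hP x y h rfl
        rw [sing_red ha hb (A.eqn h)] at h1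
        exact (h0 x y h).2 h1
    · intro hP x y h e
      rw [sing_red ha hb (A.eqn h)]
      rw [e] at hP
      exact (h0 x y h).1 hP
  rw [hset]
  exact AddSubgroup.closure_eq _

include A in
/-- type III -/
theorem idx_III (ha : v a < 1) (hbv : v b = exp (-1)) :
    (AddSubgroup.closure {P : W.toAffine.Point | ∀ x y h, P = Affine.Point.some x y h →
      1 < v x ∨ v (W.a₁ * y - (3 * x ^ 2 + 2 * W.a₂ * x + W.a₄)) = 1 ∨
      v (2 * y + W.a₁ * x + W.a₃) = 1}).index = 2 := by
  have hb : v b < 1 := by rw [hbv, ← exp_zero, exp_lt_exp]; norm_num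
  refine idx_of A ha hb (H := (dl A.S0 (pv_Chr v)).ker)
    (ker_index_two (dl A.S0 (pv_Chr v)) (g := Tp A.S0) ?_) ?_
  · show dlf _ _ _ (Tp A.S0) = 1
    unfold Tp
    rw [dlf_some, if_pos rfl, pv_exp v hbv]
    decide
  · intro X Y h
    rw [AddMonoidHom.mem_ker, dl_apply, dlf_some]
    split_ifs with hX
    · rw [pv_exp v hbv, hX, map_zero]
      constructor
      · intro h1; exact absurd h1 (by decide)
      · intro h1; simp at h1
    · rw [sub_zero]
      obtain ⟨k, hk⟩ := exists_exp v hX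
      rw [pv_exp v hk]
      constructor
      · intro h1
        have hk2 : (2 : ℤ) ∣ k := by
          rw [ZMod.intCast_zmod_eq_zero_iff_dvd] at h1
          exact_mod_cast h1
        obtain ⟨j, rfl⟩ := hk2
        by_contra h3
        push Not at h3
        rw [hk, ← exp_zero, exp_lt_exp] at h3
        -- `X` has negative even order, so that `X² + a X + b` has odd order
        have e1 := A.eqn h
        have h4 : v (X ^ 2 + a * X) < v b := by
          rw [hbv]
          refine v.map_add_lt ?_ ?_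
          · rw [map_pow, hk, exp_sq, exp_lt_exp]; omega
          · rw [map_mul, hk]
            calc v a * exp (2 * j) ≤ 1 * exp (2 * j) := mul_le_mul_left ha.le _
              _ = exp (2 * j) := one_mul _
              _ < exp (-1) := by rw [exp_lt_exp]; omega
        have h5 : v (X ^ 2 + a * X + b) = exp (-1) := by
          rw [v.map_add_eq_of_lt_right h4, hbv]
        have h6 : v (Y ^ 2) = exp (2 * j + -1) := by
          have e : Y ^ 2 = X * (X ^ 2 + a * X + b) := by rw [e1]; ring
          rw [e, map_mul, h5, hk, ← exp_add]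
        have hY0 : Y ≠ 0 := by
          rintro rfl
          rw [map_pow, map_zero] at h6
          exact exp_ne_zero (by rw [← h6]; simp)
        obtain ⟨l, hl⟩ := exists_exp v hY0
        rw [map_pow, hl, exp_sq, exp_inj] at h6
        omega
      · intro h1
        obtain ⟨j, -, hj⟩ := ev_of_le ha hb (A.eqn h) h1
        rw [hk, exp_inj] at hj
        rw [hj]
        push_cast
        have : (2 : ZMod 2) = 0 := by decide
        rw [this, zero_mul]

variable {m α β : L}

/-- the elements near to a square -/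
lemma near_Cls : Cls (fun x : L => x ≠ 0 ∧ ∃ s, v (x - s ^ 2) < v x) := by
  refine ⟨fun x h => h.1, ?_, ?_⟩
  · rintro x y ⟨hx, s, hs⟩ ⟨hy, t, ht⟩
    refine ⟨mul_ne_zero hx hy, s * t, ?_⟩
    have e : x * y - (s * t) ^ 2 = (x * (y - t ^ 2) + y * (x - s ^ 2)) - (x - s ^ 2) * (y - t ^ 2) := by
      ring
    have vx := (v.ne_zero_iff).2 hx
    have vy := (v.ne_zero_iff).2 hy
    rw [e, map_mul]
    refine v.map_sub_lt (v.map_add_lt ?_ ?_) ?_
    · rw [map_mul]
      exact mul_lt_mul_of_pos_left ht (zero_lt_iff.2 vx)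
    · rw [map_mul, mul_comm (v x)]
      exact mul_lt_mul_of_pos_left hs (zero_lt_iff.2 vy)
    · rw [map_mul]
      exact mul_lt_mul'' hs ht zero_le zero_le
  · intro x hx
    refine ⟨pow_ne_zero 2 hx, x, ?_⟩
    rw [sub_self, map_zero]
    exact zero_lt_iff.2 ((v.ne_zero_iff).2 (pow_ne_zero 2 hx))

/-- type I0*, the quadratic factor irreducible -/
theorem idx_nonsq (A : AB W (α * m) (β * m ^ 2)) (hα : v α ≤ 1) (hβ : v β = 1) (hm : v m = exp (-1))
    (hs : ∀ s : L, ¬ v (β - s ^ 2) < 1) (ht : ∀ t : L, v t = 1 → ¬ v (t ^ 2 + α * t + β) < 1) :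
    (AddSubgroup.closure {P : W.toAffine.Point | ∀ x y h, P = Affine.Point.some x y h →
      1 < v x ∨ v (W.a₁ * y - (3 * x ^ 2 + 2 * W.a₂ * x + W.a₄)) = 1 ∨
      v (2 * y + W.a₁ * x + W.a₃) = 1}).index = 2 := by
  have lm : v m < 1 := by rw [hm, ← exp_zero, exp_lt_exp]; norm_num
  have hm0 : m ≠ 0 := by
    rintro rfl
    rw [map_zero] at hm
    exact exp_ne_zero hm.symm
  have ha : v (α * m) < 1 := vmull hα lm
  have hb : v (β * m ^ 2) < 1 := vmull hβ.le (vpowl lm two_ne_zero)
  have hm2 : v (β * m ^ 2) = v m ^ 2 := by rw [map_mul, hβ, one_mul, map_pow]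
  have hG : Cls (fun x : L => x ≠ 0 ∧ ∃ s, v (x - s ^ 2) < v x) := near_Cls
  have hD : ¬ ((β * m ^ 2 : L) ≠ 0 ∧ ∃ s, v (β * m ^ 2 - s ^ 2) < v (β * m ^ 2)) := by
    rintro ⟨-, s, h1⟩
    apply hs (s / m)
    have e : β * m ^ 2 - s ^ 2 = (β - (s / m) ^ 2) * m ^ 2 := by
      field_simp
    rw [e, map_mul, hm2, map_pow] at h1
    have h3 : 0 < v m ^ 2 := zero_lt_iff.2 (pow_ne_zero 2 ((v.ne_zero_iff).2 hm0))
    by_contra h4
    push Not at h4
    have h5 : 1 * v m ^ 2 ≤ v (β - (s / m) ^ 2) * v m ^ 2 := mul_le_mul_left h4 _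
    rw [one_mul] at h5
    exact absurd h1 (not_lt.2 h5)
  have hgood : ∀ X Y : L, W.toAffine.Nonsingular X Y → 1 ≤ v X →
      (X ≠ 0 ∧ ∃ s, v (X - s ^ 2) < v X) := by
    intro X Y h h1
    have hX0 : X ≠ 0 := by
      rintro rfl
      simp at h1
    refine ⟨hX0, Y / X, ?_⟩
    have e : X - (Y / X) ^ 2 = -(α * m + β * m ^ 2 / X) := by
      rw [div_pow, A.eqn h]
      field_simp
      ring
    rw [e, Valuation.map_neg]
    refine lt_of_lt_of_le ?_ h1
    refine vaddl ha ?_
    rw [map_div₀]
    refine lt_of_le_of_lt ?_ hb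
    rw [div_le_iff₀ (zero_lt_iff.2 ((v.ne_zero_iff).2 hX0))]
    exact le_mul_of_one_le_right' h1
  -- at a point with singular reduction `X` has even order or the root is near
  have hodd : ∀ X Y : L, W.toAffine.Nonsingular X Y → v X = exp (-1) → False := by
    intro X Y h hk
    have e3 := A.eqn h
    set t := X / m with htd
    have hXt : X = m * t := by
      rw [htd]
      field_simp
    have hvt : v t = 1 := by
      rw [htd, map_div₀, hk, hm]
      exact div_self exp_ne_zero
    have e4 : Y ^ 2 = m ^ 3 * (t * (t ^ 2 + α * t + β)) := by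
      rw [e3, hXt]
      ring
    apply ht t hvt
    have c1 : v (t ^ 2 + α * t + β) ≤ 1 := vadd (vadd (vpow hvt.le 2) (vmul hα hvt.le)) hβ.le
    refine lt_of_le_of_ne c1 ?_
    intro c2
    have h8 := congrArg v e4
    rw [map_mul, map_mul, c2, hvt, mul_one, mul_one, map_pow, map_pow, hm, exp_cube] at h8
    have hY0 : Y ≠ 0 := by
      rintro rfl
      rw [map_zero] at h8
      exact exp_ne_zero (by rw [← h8]; simp)
    obtain ⟨l, hl⟩ := exists_exp v hY0
    rw [hl, exp_sq, exp_inj] at h8
    omega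
  have hflip : ∀ X Y : L, W.toAffine.Nonsingular X Y → X ≠ 0 → v X < 1 →
      1 ≤ v (β * m ^ 2 / X) := by
    intro X Y h hX h4
    by_contra h7
    push Not at h7
    obtain ⟨k, hk⟩ := exists_exp v hX
    have hk0 : k < 0 := by
      rw [hk, ← exp_zero, exp_lt_exp] at h4
      exact h4
    have hv' : v (β * m ^ 2 / X) = exp (-2 - k) := by
      rw [map_div₀, hm2, hm, hk, exp_sq, ← exp_sub]
      norm_num
    have hk1 : -2 < k := by
      rw [hv', ← exp_zero, exp_lt_exp] at h7
      omega
    have hk2 : k = -1 := by omega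
    subst hk2
    exact hodd X Y h hk
  set G : L → Prop := fun x : L => x ≠ 0 ∧ ∃ s, v (x - s ^ 2) < v x with hGd
  have hiff : ∀ X Y (h : W.toAffine.Nonsingular X Y), (.some X Y h : W.toAffine.Point) ∈ SG A.S0 hG ↔
      1 ≤ v X := by
    intro X Y h
    rw [mem_SG_some A.S0 hG]
    constructor
    · rintro ⟨h1, h3⟩
      by_cases hX : X = 0
      · exact absurd (h3 hX) hD
      · by_contra h4
        push Not at h4
        have h5 := h1 hX
        obtain ⟨X', Y', h', e1, e2⟩ := add_T A.S0 hX h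
        rw [sub_zero, sub_zero] at e1
        have h6 : 1 ≤ v X' := by
          rw [e1]
          exact hflip X Y h hX h4
        have h7 := hgood X' Y' h' h6
        have h8 := hG.mul _ _ h7 h5
        rw [e1, sub_zero, div_mul_cancel₀ _ hX] at h8
        exact hD h8
    · intro h1
      refine ⟨fun _ => by rw [sub_zero]; exact hgood X Y h h1, fun h3 => ?_⟩
      rw [h3, map_zero] at h1
      simp at h1
  refine idx_of A ha hb (H := SG A.S0 hG) ?_ hiff
  rw [AddSubgroup.index_eq_two_iff]
  refine ⟨Tp A.S0, ?_⟩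
  have hT : Tp A.S0 ∉ SG A.S0 hG := by
    rw [mem_SG_T]
    exact hD
  rintro (_ | ⟨X, Y, h⟩)
  · refine Or.inr ⟨(SG A.S0 hG).zero_mem, ?_⟩
    have e : (Affine.Point.zero : W.toAffine.Point) + Tp A.S0 = Tp A.S0 := zero_add _
    rw [e]
    exact hT
  · by_cases hX : X = 0
    · rw [eq_T A.S0 hX h, T_add_T]
      exact Or.inl ⟨(SG A.S0 hG).zero_mem, hT⟩
    · by_cases h1 : (.some X Y h : W.toAffine.Point) ∈ SG A.S0 hG
      · refine Or.inr ⟨h1, fun h3 => hT ?_⟩
        have := (SG A.S0 hG).sub_mem h3 h1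
        rwa [add_sub_cancel_left] at this
      · refine Or.inl ⟨?_, h1⟩
        have h4 : v X < 1 := by
          rw [hiff] at h1
          exact not_le.1 h1
        obtain ⟨X', Y', h', e1, e2⟩ := add_T A.S0 hX h
        rw [e2, hiff]
        rw [sub_zero, sub_zero] at e1
        rw [e1]
        exact hflip X Y h hX h4

/-- type I0*, the quadratic factor split: `r₁`, `r₂` are the roots of `t² + α t + β` -/
theorem idx_sq (A : AB W (α * m) (β * m ^ 2)) (hα : v α ≤ 1) (hβ : v β = 1) (hm : v m = exp (-1))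
    {r₁ r₂ : L} (hr : r₁ + r₂ = -α) (hr' : r₁ * r₂ = β) (h1 : v r₁ = 1) (hd : r₁ ≠ r₂) :
    (AddSubgroup.closure {P : W.toAffine.Point | ∀ x y h, P = Affine.Point.some x y h →
      1 < v x ∨ v (W.a₁ * y - (3 * x ^ 2 + 2 * W.a₂ * x + W.a₄)) = 1 ∨
      v (2 * y + W.a₁ * x + W.a₃) = 1}).index = 4 := by
  have lm : v m < 1 := by rw [hm, ← exp_zero, exp_lt_exp]; norm_num
  have hm0 : m ≠ 0 := by
    rintro rfl
    rw [map_zero] at hm
    exact exp_ne_zero hm.symm
  have ha : v (α * m) < 1 := vmull hα lm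
  have hb : v (β * m ^ 2) < 1 := vmull hβ.le (vpowl lm two_ne_zero)
  have hbv : v (β * m ^ 2) = exp (-2) := by
    rw [map_mul, hβ, one_mul, map_pow, hm, exp_sq]
    norm_num
  have r0 : r₁ ≠ 0 := by
    rintro rfl
    rw [map_zero] at h1
    exact zero_ne_one h1
  set e1 := m * r₁ with he1
  have hev : v e1 = exp (-1) := by rw [he1, map_mul, h1, hm, mul_one]
  have he0 : e1 ≠ 0 := mul_ne_zero hm0 r0
  have S1 : CR W e1 (m ^ 2 * (r₁ * (r₁ - r₂))) := by
    refine ⟨A.k1, A.k3, ?_, ?_, ?_⟩
    · rw [A.k2, A.k4, A.k6, he1]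
      linear_combination (m ^ 3 * r₁ ^ 2) * hr - (m ^ 3 * r₁) * hr'
    · rw [A.k2, A.k4, he1]
      linear_combination (-2 * m ^ 2 * r₁) * hr + m ^ 2 * hr'
    · exact mul_ne_zero (pow_ne_zero 2 hm0) (mul_ne_zero r0 (sub_ne_zero.2 hd))
  have two0 : ∀ k : ℤ, ((2 * k : ℤ) : ZMod 2) = 0 := by
    intro k
    push_cast
    have : (2 : ZMod 2) = 0 := by decide
    rw [this, zero_mul]
  refine idx_of A ha hb (H := ((dl A.S0 (pv_Chr v)).prod (dl S1 (pv_Chr v))).ker)
    (ker_index_four (dl A.S0 (pv_Chr v)) (dl S1 (pv_Chr v)) (g := Tp A.S0) (g' := Tp S1) ?_ ?_ ?_) ?_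
  · show dlf _ _ _ (Tp A.S0) = 0
    unfold Tp
    rw [dlf_some, if_pos rfl, pv_exp v hbv]
    decide
  · show dlf _ _ _ (Tp A.S0) = 1
    unfold Tp
    rw [dlf_some, if_neg he0.symm, zero_sub, pv_exp v (k := -1) (by rw [Valuation.map_neg, hev])]
    decide
  · show dlf _ _ _ (Tp S1) = 1
    unfold Tp
    rw [dlf_some, if_neg he0, sub_zero, pv_exp v hev]
    decide
  · intro X Y h
    rw [AddMonoidHom.mem_ker, AddMonoidHom.prod_apply, Prod.mk_eq_zero, dl_apply, dl_apply,
      dlf_some, dlf_some]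
    constructor
    · rintro ⟨h1, h3⟩
      by_contra h4
      push Not at h4
      by_cases hX : X = 0
      · rw [if_neg (by rw [hX]; exact he0.symm), hX, zero_sub,
          pv_exp v (k := -1) (by rw [Valuation.map_neg, hev])] at h3
        exact absurd h3 (by decide)
      · rw [if_neg hX, sub_zero] at h1
        obtain ⟨k, hk⟩ := exists_exp v hX
        rw [pv_exp v hk, ZMod.intCast_zmod_eq_zero_iff_dvd] at h1
        have hk0 : k < 0 := by
          rw [hk, ← exp_zero, exp_lt_exp] at h4
          exact h4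
        have hk1 : k < -1 := by
          have h1' : (2 : ℤ) ∣ k := by exact_mod_cast h1
          omega
        have hlt : v X < v e1 := by rw [hk, hev, exp_lt_exp]; exact hk1
        have hXe : X ≠ e1 := by
          rintro rfl
          exact lt_irrefl _ hlt
        have h5 : v (X - e1) = exp (-1) := by rw [v.map_sub_eq_of_lt_right hlt, hev]
        rw [if_neg hXe, pv_exp v h5] at h3
        exact absurd h3 (by decide)
    · intro h1
      obtain ⟨j, hj0, hj⟩ := ev_of_le ha hb (A.eqn h) h1
      have hX0 : X ≠ 0 := by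
        rintro rfl
        simp at h1
      have hlt : v e1 < v X := by rw [hj, hev, exp_lt_exp]; omega
      have hXe : X ≠ e1 := by
        rintro rfl
        exact lt_irrefl _ hlt
      refine ⟨?_, ?_⟩
      · rw [if_neg hX0, sub_zero, pv_exp v hj]
        exact two0 j
      · rw [if_neg hXe, pv_exp v (k := 2 * j) (by rw [v.map_sub_eq_of_lt_left hlt, hj])]
        exact two0 j

include A in
/-- good reduction -/
theorem idx_good (h2 : v (2 : L) = 1) (ha : v a ≤ 1) (hb : v b = 1) (hd : v (a ^ 2 - 4 * b) = 1) :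
    (AddSubgroup.closure {P : W.toAffine.Point | ∀ x y h, P = Affine.Point.some x y h →
      1 < v x ∨ v (W.a₁ * y - (3 * x ^ 2 + 2 * W.a₂ * x + W.a₄)) = 1 ∨
      v (2 * y + W.a₁ * x + W.a₃) = 1}).index = 1 := by
  rw [A.k1, A.k2, A.k3, A.k4, AddSubgroup.index_eq_one]
  have h3' : v (3 : L) ≤ 1 := by exact_mod_cast vnat v 3
  have e : {P : W.toAffine.Point | ∀ x y h, P = Affine.Point.some x y h →
      1 < v x ∨ v (0 * y - (3 * x ^ 2 + 2 * a * x + b)) = 1 ∨
      v (2 * y + 0 * x + 0) = 1} = Set.univ := by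
    rw [Set.eq_univ_iff_forall]
    intro P x y h _
    rcases lt_or_ge 1 (v x) with hx | hx
    · exact Or.inl hx
    · right
      have e1 : 0 * y - (3 * x ^ 2 + 2 * a * x + b) = -(3 * x ^ 2 + 2 * a * x + b) := by ring
      have e2 : 2 * y + 0 * x + 0 = 2 * y := by ring
      rw [e1, e2, Valuation.map_neg]
      have h := A.eqn h
      have hy : v y ≤ 1 := by
        have h4 : v (y ^ 2) ≤ 1 := by
          rw [h]
          exact vadd (vadd (vpow hx 3) (vmul ha (vpow hx 2))) (vmul hb.le hx)
        rw [map_pow] at h4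
        by_contra h5
        push Not at h5
        exact absurd h4 (not_le.2 (one_lt_pow₀ h5 two_ne_zero))
      rcases hy.lt_or_eq with h4 | h4
      · left
        have h5 : v (x * (x ^ 2 + a * x + b)) < 1 := by
          have e : x * (x ^ 2 + a * x + b) = y ^ 2 := by rw [h]; ring
          rw [e]
          exact vpowl h4 two_ne_zero
        rcases hx.lt_or_eq with h6 | h6
        · have h7 : v (3 * x ^ 2 + 2 * a * x) < v b := by
            rw [hb]
            exact vaddl (vmull h3' (vpowl h6 two_ne_zero)) (vmull (vmul h2.le ha) h6)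
          rw [v.map_add_eq_of_lt_right h7, hb]
        · rw [map_mul, h6, one_mul] at h5
          have h7 : v (2 * x + a) = 1 := by
            have c2 : v ((2 * x + a) ^ 2) = 1 := by
              have e : (2 * x + a) ^ 2 = 4 * (x ^ 2 + a * x + b) + (a ^ 2 - 4 * b) := by ring
              have h4' : v (4 : L) ≤ 1 := by exact_mod_cast vnat v 4
              rw [e, v.map_add_eq_of_lt_right, hd]
              rw [hd]
              exact vmull h4' h5
            rw [map_pow] at c2
            exact (pow_eq_one_iff_of_nonneg zero_le two_ne_zero).1 c2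
          have e : 3 * x ^ 2 + 2 * a * x + b = (x ^ 2 + a * x + b) + x * (2 * x + a) := by ring
          have h8 : v (x * (2 * x + a)) = 1 := by rw [map_mul, h6, h7, one_mul]
          rw [e, v.map_add_eq_of_lt_right, h8]
          rw [h8]
          exact h5
      · right
        rw [map_mul, h2, h4, one_mul]
  rw [e]
  exact AddSubgroup.closure_univ

end Run7.h555.G6
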