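import Pool.Agent.Run7.h555.G6.U1

/-!
Points of order three and the classes of `Y - β` on `Y² = (X - c)³ + β²`, at a place above two.
-/

set_option autoImplicit false
set_option linter.unusedSectionVars false

namespace Run7.h555.G6

open WeierstrassCurve WithZero
open Run7.h555.Tam (exists_exp exp_sq exp_cube vint vnat vadd vsub vmul vpow vneg vaddl vsubl vmull vmulr
  vpowl)

variable {L : Type} [Field L] {W : WeierstrassCurve L} {c B β : L}

/-- the curve `Y² = (X - c)³ + B` -/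
structure KC (W : WeierstrassCurve L) (c B : L) : Prop where
  k1 : W.a₁ = 0
  k2 : W.a₂ = -3 * c
  k3 : W.a₃ = 0
  k4 : W.a₄ = 3 * c ^ 2
  k6 : W.a₆ = B - c ^ 3

variable (S : KC W c B) [DecidableEq L]

include S in
omit [DecidableEq L] in
lemma KC.eqn {X Y : L} (h : W.toAffine.Equation X Y) : Y ^ 2 = (X - c) ^ 3 + B := by
  rw [Affine.equation_iff, S.k1, S.k2, S.k3, S.k4, S.k6] at h
  linear_combination h

include S in
omit [DecidableEq L] in
lemma KC.neg_some {X Y : L} (h : W.toAffine.Nonsingular X Y) :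
    ∃ (h' : W.toAffine.Nonsingular X (-Y)),
      -(.some X Y h : W.toAffine.Point) = .some X (-Y) h' := by
  have e : W.toAffine.negY X Y = -Y := by
    simp only [Affine.negY, S.k1, S.k3]; ring
  have h' : W.toAffine.Nonsingular X (-Y) := by
    rw [← e]
    exact (Affine.nonsingular_neg X Y).2 h
  refine ⟨h', ?_⟩
  rw [Affine.Point.neg_some]
  congr 1

include S in
/-- the product of the three values of `Y - β` on a line is a cube, for both roots `β` of `B` -/
theorem line_cube {X₁ Y₁ X₂ Y₂ X₃ Y₃ : L} {h₁ : W.toAffine.Nonsingular X₁ Y₁}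
    {h₂ : W.toAffine.Nonsingular X₂ Y₂} {h₃ : W.toAffine.Nonsingular X₃ Y₃}
    (h : (.some X₁ Y₁ h₁ : W.toAffine.Point) + .some X₂ Y₂ h₂ = .some X₃ Y₃ h₃) :
    ∃ ν : L, ∀ β : L, β ^ 2 = B → (Y₁ - β) * (Y₂ - β) * (Y₃ + β) = -(ν - β) ^ 3 := by
  have hxy : ¬ (X₁ = X₂ ∧ Y₁ = W.toAffine.negY X₂ Y₂) := by
    rintro ⟨e1, e2⟩
    rw [Affine.Point.add_of_Y_eq e1 e2] at h
    exact Affine.Point.some_ne_zero _ h.symm
  rw [Affine.Point.add_some hxy, Affine.Point.some.injEq] at h
  obtain ⟨hX, hY⟩ := h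
  have e1 := S.eqn h₁.1
  have e2 := S.eqn h₂.1
  set l := W.toAffine.slope X₁ X₂ Y₁ Y₂ with hl
  have hX' : X₃ = l ^ 2 + 3 * c - X₁ - X₂ := by
    rw [← hX]
    simp only [Affine.addX, S.k1, S.k2]
    ring
  have hY' : Y₃ = -(l * (X₃ - X₁) + Y₁) := by
    rw [← hY, ← hX]
    simp only [Affine.addY, Affine.negAddY, Affine.negY, S.k1, S.k3]
    ring
  refine ⟨Y₁ - l * (X₁ - c), fun β hβ => ?_⟩
  rw [hY']
  by_cases hx : X₁ = X₂
  · have hy : Y₁ ≠ W.toAffine.negY X₂ Y₂ := fun hc => hxy ⟨hx, hc⟩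
    have hyy : Y₁ = Y₂ := by
      rcases Affine.Y_eq_of_X_eq h₁.1 h₂.1 hx with hh | hh
      · exact hh
      · exact absurd hh hy
    have hneg : W.toAffine.negY X₁ Y₁ = -Y₁ := by
      simp only [Affine.negY, S.k1, S.k3]; ring
    have hd : 2 * Y₁ ≠ 0 := by
      intro h0
      apply hy
      rw [← hx, ← hyy, hneg]
      linear_combination h0
    have hs : l * (2 * Y₁) = 3 * (X₁ - c) ^ 2 := by
      rw [hl, Affine.slope_of_Y_ne hx hy, hneg, S.k1, S.k2, S.k4]
      have hd' : Y₁ - -Y₁ ≠ 0 := by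
        intro h0; apply hd; linear_combination h0
      rw [div_mul_eq_mul_div, div_eq_iff hd']
      ring
    rw [hX', ← hyy, ← hx]
    -- with `x = X₁ - c`
    linear_combination (l ^ 3) * e1 - (l ^ 3) * hβ - (l ^ 2 * (Y₁ - β)) * hs
  · have hx' : X₁ - X₂ ≠ 0 := sub_ne_zero.2 hx
    have hs : l * (X₁ - X₂) = Y₁ - Y₂ := by
      rw [hl, Affine.slope_of_X_ne hx]
      field_simp
    rw [hX']
    have hY2 : Y₂ = Y₁ - l * (X₁ - X₂) := by linear_combination hs
    rw [hY2] at e2 ⊢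
    have e3 : (X₁ - c) ^ 2 + (X₁ - c) * (X₂ - c) + (X₂ - c) ^ 2 - l ^ 2 * ((X₁ - c) + (X₂ - c)) -
        2 * l * (Y₁ - l * (X₁ - c)) = 0 := by
      apply mul_left_cancel₀ hx'
      linear_combination e2 - e1
    linear_combination (l ^ 3) * e1 - (l ^ 3) * hβ + (l ^ 2 * (Y₁ - β)) * e3

/-- a subgroup of index three -/
theorem index_three {G : Type*} [AddCommGroup G] {H : AddSubgroup G} {T : G} (h3 : (3 : ℕ) • T = 0)
    (hT : T ∉ H) (h : ∀ P, P ∈ H ∨ P + T ∈ H ∨ P - T ∈ H) : H.index = 3 := by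
  have hT' : ((T : G) : G ⧸ H) ≠ 0 := by
    intro h0
    exact hT ((QuotientAddGroup.eq_zero_iff T).1 h0)
  have ho : addOrderOf ((T : G) : G ⧸ H) = 3 := by
    have : Fact (Nat.Prime 3) := ⟨Nat.prime_three⟩
    refine addOrderOf_eq_prime ?_ hT'
    have := congrArg (fun x : G => (x : G ⧸ H)) h3
    exact this
  have htop : AddSubgroup.zmultiples ((T : G) : G ⧸ H) = ⊤ := by
    rw [eq_top_iff]
    rintro x -
    induction x using QuotientAddGroup.induction_on with
    | H P =>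
      rcases h P with h | h | h
      · rw [(QuotientAddGroup.eq_zero_iff P).2 h]
        exact zero_mem _
      · have e : ((P : G) : G ⧸ H) = -((T : G) : G ⧸ H) := by
          have := (QuotientAddGroup.eq_zero_iff (P + T)).2 h
          exact eq_neg_of_add_eq_zero_left this
        rw [e]
        exact neg_mem (AddSubgroup.mem_zmultiples _)
      · have e : ((P : G) : G ⧸ H) = ((T : G) : G ⧸ H) := by
          have := (QuotientAddGroup.eq_zero_iff (P - T)).2 h
          exact sub_eq_zero.1 this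
        rw [e]
        exact AddSubgroup.mem_zmultiples _
  unfold AddSubgroup.index
  rw [← ho, ← Nat.card_zmultiples, htop]
  exact (Nat.card_congr (Equiv.Set.univ _)).symm

end Run7.h555.G6
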