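import Pool.Agent.Run7.h555.G6.U2

/-!
The local index of `Y² = (X - c)³ + B`, `B` a unit, at a place above two which is not ramified.
-/

set_option autoImplicit false
set_option linter.unusedSectionVars false

namespace Run7.h555.G6

open WeierstrassCurve WithZero
open Run7.h555.Tam (exists_exp exp_sq exp_cube vint vnat vadd vsub vmul vpow vneg vaddl vsubl vmull vmulr
  vpowl)

variable {L : Type} [Field L] {W : WeierstrassCurve L} {c B β : L} [DecidableEq L]
  {v : Valuation L ℤᵐ⁰} (S : KC W c B)

omit [DecidableEq L] in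
/-- the points with nonsingular reduction -/
theorem sing_two (h2 : v (2 : L) = exp (-1)) (hc : v c = 1) (hB : v B = 1) {x y : L}
    (h : y ^ 2 = (x - c) ^ 3 + B) :
    (1 < v x ∨ v (0 * y - (3 * x ^ 2 + 2 * (-3 * c) * x + 3 * c ^ 2)) = 1 ∨
      v (2 * y + 0 * x + 0) = 1) ↔ 1 ≤ v (x - c) := by
  have l2 : v (2 : L) < 1 := by rw [h2, ← exp_zero, exp_lt_exp]; norm_num
  have h3 : v (3 : L) = 1 := by
    have e : (3 : L) = 1 + 2 := by norm_num
    rw [e]
    exact v.map_one_add_of_lt l2
  have e1 : 0 * y - (3 * x ^ 2 + 2 * (-3 * c) * x + 3 * c ^ 2) = -(3 * (x - c) ^ 2) := by ring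
  have e2 : 2 * y + 0 * x + 0 = 2 * y := by ring
  rw [e1, e2, Valuation.map_neg, map_mul, h3, one_mul, map_pow]
  constructor
  · intro hh
    by_contra h1
    push Not at h1
    rcases hh with hh | hh | hh
    · have e : x = (x - c) + c := by ring
      rw [e] at hh
      exact absurd (vadd h1.le hc.le) (not_le.2 hh)
    · have : v (x - c) ^ 2 < 1 := pow_lt_one₀ zero_le h1 two_ne_zero
      rw [hh] at this
      exact lt_irrefl _ this
    · have hy : v y ≤ 1 := by
        have h4 : v (y ^ 2) ≤ 1 := by
          rw [h]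
          exact vadd (vpow h1.le 3) hB.le
        rw [map_pow] at h4
        by_contra h5
        push Not at h5
        exact absurd h4 (not_le.2 (one_lt_pow₀ h5 two_ne_zero))
      have : v (2 * y) < 1 := vmulr l2 hy
      rw [hh] at this
      exact lt_irrefl _ this
  · intro h1
    rcases lt_or_ge 1 (v x) with hx | hx
    · exact Or.inl hx
    · right; left
      have h4 : v (x - c) = 1 := le_antisymm (vsub hx hc.le) h1
      rw [h4, one_pow]

include S in
/-- a subgroup which is the set of the points with nonsingular reduction -/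
theorem idx_of2 (h2 : v (2 : L) = exp (-1)) (hc : v c = 1) (hB : v B = 1)
    {H : AddSubgroup W.toAffine.Point} {n : ℕ} (hH : H.index = n)
    (h0 : ∀ X Y (h : W.toAffine.Nonsingular X Y), (.some X Y h : W.toAffine.Point) ∈ H ↔
      1 ≤ v (X - c)) :
    (AddSubgroup.closure {P : W.toAffine.Point | ∀ x y h, P = Affine.Point.some x y h →
      1 < v x ∨ v (W.a₁ * y - (3 * x ^ 2 + 2 * W.a₂ * x + W.a₄)) = 1 ∨
      v (2 * y + W.a₁ * x + W.a₃) = 1}).index = n := by
  rw [S.k1, S.k2, S.k3, S.k4, ← hH]
  congr 1
  have hset : {P : W.toAffine.Point | ∀ x y h, P = Affine.Point.some x y h →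
      1 < v x ∨ v (0 * y - (3 * x ^ 2 + 2 * (-3 * c) * x + 3 * c ^ 2)) = 1 ∨
      v (2 * y + 0 * x + 0) = 1} = (H : Set W.toAffine.Point) := by
    apply Set.ext
    intro P
    constructor
    · intro hP
      rcases P with _ | ⟨x, y, h⟩
      · exact H.zero_mem
      · have h1 := hP x y h rfl
        rw [sing_two h2 hc hB (S.eqn h.1)] at h1
        exact (h0 x y h).2 h1
    · intro hP x y h e
      rw [sing_two h2 hc hB (S.eqn h.1)]
      rw [e] at hP
      exact (h0 x y h).1 hP
  rw [hset]
  exact AddSubgroup.closure_eq _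

include S in
/-- `B` is not a square modulo eight -/
theorem idx_two_one (h2 : v (2 : L) = exp (-1)) (hc : v c = 1) (hB : v B = 1)
    (hs : ∀ s : L, ¬ v (s ^ 2 - B) ≤ exp (-3)) :
    (AddSubgroup.closure {P : W.toAffine.Point | ∀ x y h, P = Affine.Point.some x y h →
      1 < v x ∨ v (W.a₁ * y - (3 * x ^ 2 + 2 * W.a₂ * x + W.a₄)) = 1 ∨
      v (2 * y + W.a₁ * x + W.a₃) = 1}).index = 1 := by
  refine idx_of2 S h2 hc hB (H := ⊤) AddSubgroup.index_top fun X Y h => ?_
  refine iff_of_true (AddSubgroup.mem_top _) ?_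
  by_contra h1
  push Not at h1
  apply hs Y
  rw [S.eqn h.1, add_sub_cancel_right, map_pow]
  by_cases hX : X - c = 0
  · rw [hX, map_zero]
    simp
  · obtain ⟨k, hk⟩ := exists_exp v hX
    have hk0 : k < 0 := by
      rw [hk, ← exp_zero, exp_lt_exp] at h1
      exact h1
    rw [hk, exp_cube, exp_le_exp]
    omega

/-- the order is divisible by three -/
def Gc (v : Valuation L ℤᵐ⁰) (x : L) : Prop := ∃ k : ℤ, v x = exp (3 * k)

omit [DecidableEq L] in
lemma Gc.ne {x : L} (h : Gc v x) : x ≠ 0 := by
  rintro rfl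
  obtain ⟨k, hk⟩ := h
  rw [map_zero] at hk
  exact exp_ne_zero hk.symm

lemma Gc_third {x y z w : L} (hx : Gc v x) (hy : Gc v y) (hz : z ≠ 0) (h : x * y * z = -w ^ 3) :
    Gc v z := by
  obtain ⟨k, hk⟩ := hx
  obtain ⟨l, hl⟩ := hy
  have hw : w ≠ 0 := by
    rintro rfl
    have h0 : x * y * z = 0 := by rw [h]; ring
    have hx0 : x ≠ 0 := by
      rintro rfl
      rw [map_zero] at hk
      exact exp_ne_zero hk.symm
    have hy0 : y ≠ 0 := by
      rintro rfl
      rw [map_zero] at hl
      exact exp_ne_zero hl.symm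
    exact mul_ne_zero (mul_ne_zero hx0 hy0) hz h0
  obtain ⟨i, hi⟩ := exists_exp v hz
  obtain ⟨j, hj⟩ := exists_exp v hw
  have h1 := congrArg v h
  rw [map_mul, map_mul, hk, hl, hi, Valuation.map_neg, map_pow, hj, exp_cube, ← exp_add, ← exp_add,
    exp_inj] at h1
  exact ⟨j - k - l, by rw [hi, exp_inj]; omega⟩

/-- the classes at the points with nonsingular reduction -/
theorem cls_iff (h2 : v (2 : L) = exp (-1)) (hB : v β = 1) {x y : L}
    (h : y ^ 2 = (x - c) ^ 3 + β ^ 2) : (Gc v (y - β) ∧ Gc v (y + β)) ↔ 1 ≤ v (x - c) := by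
  have hp : (y - β) * (y + β) = (x - c) ^ 3 := by linear_combination h
  have hd : v (2 * β) = exp (-1) := by rw [map_mul, hB, mul_one, h2]
  have hB2 : v (β ^ 2) = 1 := by rw [map_pow, hB, one_pow]
  constructor
  · rintro ⟨⟨k, hk⟩, ⟨l, hl⟩⟩
    by_contra h1
    push Not at h1
    have hxc : x - c ≠ 0 := by
      intro h0
      have := congrArg v hp
      rw [h0, map_mul, hk, hl, ← exp_add] at this
      simp at this
    obtain ⟨j, hj⟩ := exists_exp v hxc
    have hj0 : j < 0 := by
      rw [hj, ← exp_zero, exp_lt_exp] at h1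
      exact h1
    have h3 := congrArg v hp
    rw [map_mul, hk, hl, map_pow, hj, exp_cube, ← exp_add, exp_inj] at h3
    -- `y` is integral
    have hy : v y ≤ 1 := by
      have h4 : v (y ^ 2) ≤ 1 := by
        rw [h]
        exact vadd (vpow h1.le 3) hB2.le
      rw [map_pow] at h4
      by_contra h5
      push Not at h5
      exact absurd h4 (not_le.2 (one_lt_pow₀ h5 two_ne_zero))
    have a1 : v (y - β) ≤ 1 := vsub hy hB.le
    have a2 : v (y + β) ≤ 1 := vadd hy hB.le
    rw [hk, ← exp_zero, exp_le_exp] at a1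
    rw [hl, ← exp_zero, exp_le_exp] at a2
    rcases lt_or_ge k 0 with hk0 | hk0
    · have e : y + β = (y - β) + 2 * β := by ring
      have h5 : v (y - β) < v (2 * β) := by rw [hk, hd, exp_lt_exp]; omega
      have h6 : v (y + β) = exp (-1) := by
        rw [e, v.map_add_eq_of_lt_right h5, hd]
      rw [hl, exp_inj] at h6
      omega
    · have hl0 : l < 0 := by omega
      have e : y - β = (y + β) - 2 * β := by ring
      have h5 : v (y + β) < v (2 * β) := by rw [hl, hd, exp_lt_exp]; omega
      have h6 : v (y - β) = exp (-1) := by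
        rw [e, v.map_sub_eq_of_lt_right h5, hd]
      rw [hk, exp_inj] at h6
      omega
  · intro h1
    rcases h1.eq_or_lt with h5 | h5
    · have hy : v y ≤ 1 := by
        have h4 : v (y ^ 2) ≤ 1 := by
          rw [h]
          exact vadd (vpow h5.ge 3) hB2.le
        rw [map_pow] at h4
        by_contra h5
        push Not at h5
        exact absurd h4 (not_le.2 (one_lt_pow₀ h5 two_ne_zero))
      have a1 : v (y - β) ≤ 1 := vsub hy hB.le
      have a2 : v (y + β) ≤ 1 := vadd hy hB.le
      have h3 := congrArg v hp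
      rw [map_mul, map_pow, ← h5, one_pow] at h3
      have b1 : v (y - β) = 1 := by
        by_contra hc
        have h6 : v (y - β) < 1 := lt_of_le_of_ne a1 hc
        have : v (y - β) * v (y + β) < 1 := mul_lt_one_of_nonneg_of_lt_one_left zero_le h6 a2
        rw [h3] at this
        exact lt_irrefl _ this
      have b2 : v (y + β) = 1 := by rw [b1, one_mul] at h3; exact h3
      exact ⟨⟨0, by rw [b1]; simp⟩, ⟨0, by rw [b2]; simp⟩⟩
    · have hxc : x - c ≠ 0 := by
        intro h0
        rw [h0, map_zero] at h5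
        simp at h5
      obtain ⟨j, hj⟩ := exists_exp v hxc
      have hj0 : 0 < j := by
        rw [hj, ← exp_zero, exp_lt_exp] at h5
        exact h5
      have h6 : v (y ^ 2) = exp (3 * j) := by
        rw [h, v.map_add_eq_of_lt_left, map_pow, hj, exp_cube]
        rw [hB2, map_pow, hj, exp_cube, ← exp_zero, exp_lt_exp]
        omega
      have hy0 : y ≠ 0 := by
        rintro rfl
        rw [map_pow, map_zero] at h6
        exact exp_ne_zero (by rw [← h6]; simp)
      obtain ⟨l, hl⟩ := exists_exp v hy0
      rw [map_pow, hl, exp_sq, exp_inj] at h6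
      have h7 : v β < v y := by rw [hB, hl, ← exp_zero, exp_lt_exp]; omega
      refine ⟨⟨l / 3, ?_⟩, ⟨l / 3, ?_⟩⟩
      · rw [v.map_sub_eq_of_lt_left h7, hl, exp_inj]
        omega
      · rw [v.map_add_eq_of_lt_left h7, hl, exp_inj]
        omega

/-- the classes at the points with singular reduction -/
theorem cls_sing (h2 : v (2 : L) = exp (-1)) (hB : v β = 1) {x y : L}
    (h : y ^ 2 = (x - c) ^ 3 + β ^ 2) (h1 : v (x - c) < 1) :
    v (y - β) = exp (-1) ∨ v (y + β) = exp (-1) := by
  have hp : (y - β) * (y + β) = (x - c) ^ 3 := by linear_combination h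
  have hd : v (2 * β) = exp (-1) := by rw [map_mul, hB, mul_one, h2]
  have hB2 : v (β ^ 2) = 1 := by rw [map_pow, hB, one_pow]
  have hy : v y ≤ 1 := by
    have h4 : v (y ^ 2) ≤ 1 := by
      rw [h]
      exact vadd (vpow h1.le 3) hB2.le
    rw [map_pow] at h4
    by_contra h5
    push Not at h5
    exact absurd h4 (not_le.2 (one_lt_pow₀ h5 two_ne_zero))
  rcases lt_trichotomy (v (y - β)) (exp (-1)) with h3 | h3 | h3
  · right
    have e : y + β = (y - β) + 2 * β := by ring
    rw [e, v.map_add_eq_of_lt_right (by rw [hd]; exact h3), hd]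
  · exact Or.inl h3
  · exfalso
    have hy0 : y - β ≠ 0 := by
      intro h0
      rw [h0, map_zero] at h3
      simp at h3
    obtain ⟨k, hk⟩ := exists_exp v hy0
    have a1 : v (y - β) ≤ 1 := vsub hy hB.le
    rw [hk, ← exp_zero, exp_le_exp] at a1
    rw [hk, exp_lt_exp] at h3
    have hk0 : k = 0 := by omega
    have h5 : v (2 * β) < v (y - β) := by rw [hd, hk, exp_lt_exp]; omega
    have e : y + β = (y - β) + 2 * β := by ring
    have h6 : v (y + β) = v (y - β) := by
      rw [e, v.map_add_eq_of_lt_left h5]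
    have h7 := congrArg v hp
    rw [map_mul, h6, hk, hk0, map_pow, exp_zero, mul_one] at h7
    have : v (x - c) ^ 3 < 1 := pow_lt_one₀ zero_le h1 three_ne_zero
    rw [← h7] at this
    exact lt_irrefl _ this

section three

variable (S' : KC W c (β ^ 2))

include S' in
omit [DecidableEq L] in
lemma T_ns' (hB : v β = 1) (h2 : v (2 : L) = exp (-1)) : W.toAffine.Nonsingular c β := by
  rw [Affine.nonsingular_iff, Affine.equation_iff, S'.k1, S'.k2, S'.k3, S'.k4, S'.k6]
  refine ⟨by ring, Or.inr ?_⟩
  intro h
  have h1 : 2 * β = 0 := by linear_combination h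
  have h3 : v (2 * β) = exp (-1) := by rw [map_mul, hB, mul_one, h2]
  rw [h1, map_zero] at h3
  exact exp_ne_zero h3.symm

include S' in
/-- **the index three** -/
theorem idx_two_three (h2 : v (2 : L) = exp (-1)) (hc : v c = 1) (hB : v β = 1) :
    (AddSubgroup.closure {P : W.toAffine.Point | ∀ x y h, P = Affine.Point.some x y h →
      1 < v x ∨ v (W.a₁ * y - (3 * x ^ 2 + 2 * W.a₂ * x + W.a₄)) = 1 ∨
      v (2 * y + W.a₁ * x + W.a₃) = 1}).index = 3 := by
  have hd : v (2 * β) = exp (-1) := by rw [map_mul, hB, mul_one, h2]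
  have hd0 : 2 * β ≠ 0 := by
    intro h0
    rw [h0, map_zero] at hd
    exact exp_ne_zero hd.symm
  have hβ0 : β ≠ 0 := right_ne_zero_of_mul hd0
  have hB2 : v (β ^ 2) = 1 := by rw [map_pow, hB, one_pow]
  have hK : ∀ {X Y : L} (h : W.toAffine.Nonsingular X Y),
      (Gc v (Y - β) ∧ Gc v (Y + β)) ↔ 1 ≤ v (X - c) := fun h => cls_iff h2 hB (S'.eqn h.1)
  have hodd : ∀ {x y z w : L}, Gc v x → Gc v y → v z = exp (-1) → x * y * z = -w ^ 3 → False := by
    intro x y z w hx hy hz h
    have hz0 : z ≠ 0 := by
      rintro rfl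
      rw [map_zero] at hz
      exact exp_ne_zero hz.symm
    obtain ⟨k, hk⟩ := Gc_third hx hy hz0 h
    rw [hz, exp_inj] at hk
    omega
  -- the subgroup
  let H : AddSubgroup W.toAffine.Point :=
    { carrier := {P | ∀ X Y h, P = Affine.Point.some X Y h → 1 ≤ v (X - c)}
      zero_mem' := by
        intro X Y h e
        exact absurd e.symm (Affine.Point.some_ne_zero _)
      neg_mem' := by
        rintro (_ | ⟨X, Y, h⟩) hP
        · intro X Y h e
          exact absurd e.symm (Affine.Point.some_ne_zero _)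
        · intro X' Y' h' e
          obtain ⟨h2', e2⟩ := S'.neg_some h
          rw [e2, Affine.Point.some.injEq] at e
          rw [← e.1]
          exact hP X Y h rfl
      add_mem' := by
        rintro (_ | ⟨X₁, Y₁, h₁⟩) (_ | ⟨X₂, Y₂, h₂⟩) hP hQ
        · exact hP
        · exact hQ
        · exact hP
        · intro X₃ Y₃ h₃ e3
          obtain ⟨g1, g1'⟩ := (hK h₁).2 (hP X₁ Y₁ h₁ rfl)
          obtain ⟨g2, g2'⟩ := (hK h₂).2 (hQ X₂ Y₂ h₂ rfl)
          obtain ⟨ν, hν⟩ := line_cube S' e3
          have l1 := hν β rfl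
          have l2 := hν (-β) (by ring)
          have l2' : (Y₁ + β) * (Y₂ + β) * (Y₃ - β) = -(ν + β) ^ 3 := by
            linear_combination l2
          rw [← hK h₃]
          constructor
          · refine Gc_third g1' g2' ?_ l2'
            intro h0
            have e : Y₃ + β = 2 * β := by linear_combination h0
            rw [e] at l1
            exact hodd g1 g2 hd l1
          · refine Gc_third g1 g2 ?_ l1
            intro h0
            have e : Y₃ - β = -(2 * β) := by linear_combination h0
            rw [e] at l2'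
            exact hodd g1' g2' (by rw [Valuation.map_neg]; exact hd) l2' }
  have hmem : ∀ X Y (h : W.toAffine.Nonsingular X Y), (.some X Y h : W.toAffine.Point) ∈ H ↔
      1 ≤ v (X - c) := by
    intro X Y h
    constructor
    · intro h1
      exact h1 X Y h rfl
    · intro h1 X' Y' h' e
      rw [Affine.Point.some.injEq] at e
      rw [← e.1]
      exact h1
  have hT := T_ns' S' hB h2
  set T : W.toAffine.Point := .some c β hT with hTd
  obtain ⟨hT', eT⟩ := S'.neg_some hT
  -- the double of `T`
  have hTT : T + T = -T := by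
    rcases e3 : T + T with _ | ⟨X₃, Y₃, h₃⟩
    · exfalso
      have h0 : T + T = 0 := e3
      have h1 : T = -T := eq_neg_of_add_eq_zero_left h0
      rw [eT, hTd, Affine.Point.some.injEq] at h1
      apply hd0
      linear_combination h1.2
    · obtain ⟨ν, hν⟩ := line_cube S' e3
      have l1 := hν β rfl
      have l2 := hν (-β) (by ring)
      have h4 : ν = β := by
        have : (ν - β) ^ 3 = 0 := by linear_combination l1
        exact sub_eq_zero.1 (pow_eq_zero_iff three_ne_zero |>.1 this)
      rw [h4] at l2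
      have h5 : Y₃ = -β := by
        have h6 : (2 * β) ^ 2 * (Y₃ + β) = 0 := by linear_combination l2
        have := (mul_eq_zero.1 h6).resolve_left (pow_ne_zero 2 hd0)
        linear_combination this
      have h6 : X₃ = c := by
        have h7 := S'.eqn h₃.1
        rw [h5] at h7
        have : (X₃ - c) ^ 3 = 0 := by linear_combination -h7
        exact sub_eq_zero.1 (pow_eq_zero_iff three_ne_zero |>.1 this)
      rw [eT]
      subst h5 h6
      rfl
  have h3T : (3 : ℕ) • T = 0 := by
    have : (3 : ℕ) • T = T + T + T := by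
      rw [show (3 : ℕ) = 2 + 1 from rfl, succ_nsmul, two_nsmul]
    rw [this, hTT, neg_add_cancel]
  -- the first case
  have key : ∀ X Y (h : W.toAffine.Nonsingular X Y), v (X - c) < 1 → v (Y - β) = exp (-1) →
      (.some X Y h : W.toAffine.Point) + T ∈ H := by
    intro X Y h h1 hY
    rcases e3 : (.some X Y h : W.toAffine.Point) + T with _ | ⟨X₃, Y₃, h₃⟩
    · exact H.zero_mem
    · rw [hmem]
      obtain ⟨ν, hν⟩ := line_cube S' e3
      have l1 := hν β rfl
      have l2 := hν (-β) (by ring)
      have h4 : ν = β := by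
        have : (ν - β) ^ 3 = 0 := by linear_combination l1
        exact sub_eq_zero.1 (pow_eq_zero_iff three_ne_zero |>.1 this)
      rw [h4] at l2
      have h5 : (Y + β) * (Y₃ - β) = -(2 * β) ^ 2 := by
        apply mul_left_cancel₀ hd0
        linear_combination l2
      have hne : (Y + β) * (Y₃ - β) ≠ 0 := by
        rw [h5]
        exact neg_ne_zero.2 (pow_ne_zero 2 hd0)
      have hY1 : Y + β ≠ 0 := left_ne_zero_of_mul hne
      have hY3 : Y₃ - β ≠ 0 := right_ne_zero_of_mul hne
      have hp : (Y - β) * (Y + β) = (X - c) ^ 3 := by linear_combination S'.eqn h.1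
      have hY0 : Y - β ≠ 0 := by
        intro h0
        rw [h0, map_zero] at hY
        exact exp_ne_zero hY.symm
      have hX0 : X - c ≠ 0 := by
        intro h0
        rw [h0] at hp
        exact mul_ne_zero hY0 hY1 (by rw [hp]; ring)
      obtain ⟨j, hj⟩ := exists_exp v hX0
      obtain ⟨k, hk⟩ := exists_exp v hY1
      obtain ⟨l, hl⟩ := exists_exp v hY3
      have a1 := congrArg v hp
      rw [map_mul, hY, hk, map_pow, hj, exp_cube, ← exp_add, exp_inj] at a1
      have a2 := congrArg v h5
      rw [map_mul, hk, hl, Valuation.map_neg, map_pow, hd, exp_sq, ← exp_add, exp_inj] at a2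
      have g1 : Gc v (Y₃ - β) := ⟨-1 - j, by rw [hl, exp_inj]; omega⟩
      have hp3 : (Y₃ - β) * (Y₃ + β) = (X₃ - c) ^ 3 := by linear_combination S'.eqn h₃.1
      have hY3' : Y₃ + β ≠ 0 := by
        intro h0
        have e : Y₃ - β = -(2 * β) := by linear_combination h0
        rw [e, Valuation.map_neg, hd, exp_inj] at hl
        omega
      have hX3 : X₃ - c ≠ 0 := by
        intro h0
        rw [h0] at hp3
        exact mul_ne_zero hY3 hY3' (by rw [hp3]; ring)
      obtain ⟨i, hi⟩ := exists_exp v hX3
      obtain ⟨n, hn⟩ := exists_exp v hY3'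
      have a3 := congrArg v hp3
      rw [map_mul, hl, hn, map_pow, hi, exp_cube, ← exp_add, exp_inj] at a3
      rw [← hK h₃]
      exact ⟨g1, ⟨i + 1 + j, by rw [hn, exp_inj]; omega⟩⟩
  refine idx_of2 S' h2 hc hB2 (H := H) (index_three (T := T) h3T ?_ ?_) hmem
  · rw [hTd, hmem, sub_self, map_zero]
    simp
  · rintro (_ | ⟨X, Y, h⟩)
    · exact Or.inl H.zero_mem
    · rcases lt_or_ge (v (X - c)) 1 with h1 | h1
      · rcases cls_sing h2 hB (S'.eqn h.1) h1 with h3 | h3
        · exact Or.inr (Or.inl (key X Y h h1 h3))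
        · right; right
          obtain ⟨h', e'⟩ := S'.neg_some h
          have h5 := key X (-Y) h' h1 (by
            have e : -Y - β = -(Y + β) := by ring
            rw [e, Valuation.map_neg, h3])
          rw [← e'] at h5
          have h6 := H.neg_mem h5
          have e2 : -(-(Affine.Point.some X Y h : W.toAffine.Point) + T) =
              Affine.Point.some X Y h - T := by abel
          rwa [e2] at h6
      · exact Or.inl ((hmem X Y h).2 h1)

end three

end Run7.h555.G6
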